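import Pool.Agent.Helper41.RS.REY

/-! # Module COV: rank one modules of covariants are finitely generated -/

namespace Pool.Agent.Helper43.RS

theorem COV_E {G : Type} [Group G] {H : Subalgebra ℂ (G → ℂ)} (hREY : ST_REY) (hH : HopfFun H)
    (hL : LinRed H) {R : Type} [CommRing R] [Algebra ℂ R] (ρ : G →* (R ≃ₐ[ℂ] R))
    (hr : IsRat H (toRep ρ)) (x : R) : ∃ e ∈ invt ρ, x - e ∈ REY_D (toRep ρ) := by
  have h1 := hREY G H hH hL R (toRep ρ) hr
  have h2 : x ∈ (toRep ρ).invariants ⊔ REY_D (toRep ρ) := by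
    change x ∈ (toRep ρ).invariants ⊔ Submodule.span ℂ {v | ∃ (g : G) (w : R),
      v = toRep ρ g w - w}
    rw [h1.sup_eq_top]
    trivial
  obtain ⟨e, he, d, hd, hed⟩ := Submodule.mem_sup.mp h2
  refine ⟨e, fun g => he g, ?_⟩
  rw [← hed, add_sub_cancel_left]
  exact hd

theorem COV_zero {G : Type} [Group G] {H : Subalgebra ℂ (G → ℂ)} (hREY : ST_REY)
    (hH : HopfFun H) (hL : LinRed H) {R : Type} [CommRing R] [Algebra ℂ R]
    (ρ : G →* (R ≃ₐ[ℂ] R)) (hr : IsRat H (toRep ρ)) (x : R) (hx : x ∈ invt ρ)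
    (hx' : x ∈ REY_D (toRep ρ)) : x = 0 := by
  have h1 := hREY G H hH hL R (toRep ρ) hr
  exact (Submodule.disjoint_def.mp h1.disjoint) x (fun g => hx g) hx'

theorem COV_mul {G : Type} [Group G] {R : Type} [CommRing R] [Algebra ℂ R]
    (ρ : G →* (R ≃ₐ[ℂ] R)) (d a : R) (ha : a ∈ invt ρ) (hd : d ∈ REY_D (toRep ρ)) :
    d * a ∈ REY_D (toRep ρ) := by
  have h1 : REY_D (toRep ρ) ≤ (REY_D (toRep ρ)).comap (LinearMap.mulRight ℂ a) := by
    unfold REY_D
    rw [Submodule.span_le]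
    rintro _ ⟨g, w, rfl⟩
    refine Submodule.subset_span ⟨g, w * a, ?_⟩
    rw [LinearMap.mulRight_apply, toRep_apply, toRep_apply, map_mul, ha g, sub_mul]
  exact h1 hd

theorem st_COV (hREY : ST_REY) : ST_COV := by
  intro G _ H hH hL R _ _ _ _ ρ hr S hS hS1
  have : IsNoetherianRing R := Algebra.FiniteType.isNoetherianRing ℂ R
  by_cases hne : ∃ s ∈ S, s ≠ 0
  swap
  · push Not at hne
    refine ⟨∅, fun t ht => absurd ht (Finset.notMem_empty t), fun r hr => ⟨fun _ => 0,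
      fun _ => (invt ρ).zero_mem, ?_⟩⟩
    rw [Finset.sum_empty]
    exact hne r hr
  obtain ⟨s0, hs0, hs0ne⟩ := hne
  -- finitely many elements of `S` generate the ideal of `S`
  obtain ⟨T, hTS, hT⟩ := (Submodule.fg_span_iff_fg_span_finset_subset (S : Set R)).mp
    (IsNoetherian.noetherian (Submodule.span R (S : Set R)))
  refine ⟨T, fun t ht => hTS ht, fun r hrS => ?_⟩
  have h1 : r ∈ Submodule.span R (T : Set R) := by
    rw [← hT]
    exact Submodule.subset_span hrS
  obtain ⟨x, _, hx⟩ := Submodule.mem_span_finset.mp h1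
  choose e he hd using fun t => COV_E hREY hH hL ρ hr (x t)
  refine ⟨e, he, ?_⟩
  -- common multipliers
  have key : ∀ U : Finset R, (∀ t ∈ U, t ∈ S) → ∃ C ∈ invt ρ, C ≠ 0 ∧
      ∀ t ∈ U, ∃ a ∈ invt ρ, C * t = a * s0 := by
    classical
    intro U
    induction U using Finset.induction_on with
    | empty => exact fun _ => ⟨1, (invt ρ).one_mem, one_ne_zero, fun t ht =>
        absurd ht (Finset.notMem_empty t)⟩
    | insert u U _ ih =>
      intro hU
      obtain ⟨C, hC, hC0, hCU⟩ := ih fun t ht => hU t (Finset.mem_insert_of_mem ht)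
      obtain ⟨c, hc, c', hc', hc0, hcc⟩ := hS1 u (hU u (Finset.mem_insert_self _ _)) s0 hs0 hs0ne
      refine ⟨C * c, (invt ρ).mul_mem hC hc, mul_ne_zero hC0 hc0, fun t ht => ?_⟩
      rcases Finset.mem_insert.mp ht with h | h
      · subst h
        refine ⟨C * c', (invt ρ).mul_mem hC hc', ?_⟩
        rw [mul_assoc, hcc, mul_assoc]
      · obtain ⟨a, ha, hat⟩ := hCU t h
        refine ⟨c * a, (invt ρ).mul_mem hc ha, ?_⟩
        rw [mul_comm C c, mul_assoc, hat, mul_assoc]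
  classical
  obtain ⟨C, hC, hC0, hCU⟩ := key (insert r T) (by
    intro t ht
    rcases Finset.mem_insert.mp ht with h | h
    · rw [h]
      exact hrS
    · exact hTS h)
  obtain ⟨a0, ha0, har⟩ := hCU r (Finset.mem_insert_self _ _)
  have hch : ∀ t, ∃ a ∈ invt ρ, t ∈ T → C * t = a * s0 := by
    intro t
    by_cases ht : t ∈ T
    · obtain ⟨a, ha, hat⟩ := hCU t (Finset.mem_insert_of_mem ht)
      exact ⟨a, ha, fun _ => hat⟩
    · exact ⟨0, (invt ρ).zero_mem, fun h => absurd h ht⟩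
  choose a ha hat using hch
  -- `a0 = ∑ x t * a t`
  have h2 : a0 = ∑ t ∈ T, x t * a t := by
    refine mul_right_cancel₀ hs0ne ?_
    rw [← har, ← hx, Finset.mul_sum, Finset.sum_mul]
    refine Finset.sum_congr rfl fun t ht => ?_
    rw [smul_eq_mul, mul_left_comm, hat t ht, mul_assoc]
  have h3 : a0 - ∑ t ∈ T, e t * a t = 0 := by
    refine COV_zero hREY hH hL ρ hr _ ?_ ?_
    · exact (invt ρ).sub_mem ha0 ((invt ρ).sum_mem fun t _ => (invt ρ).mul_mem (he t) (ha t))
    · have h4 : a0 - ∑ t ∈ T, e t * a t = ∑ t ∈ T, (x t - e t) * a t := by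
        rw [h2, ← Finset.sum_sub_distrib]
        exact Finset.sum_congr rfl fun t _ => (sub_mul _ _ _).symm
      rw [h4]
      exact Submodule.sum_mem _ fun t _ => COV_mul ρ _ _ (ha t) (hd t)
  refine mul_left_cancel₀ hC0 ?_
  rw [har, sub_eq_zero.mp h3, Finset.sum_mul, Finset.mul_sum]
  refine Finset.sum_congr rfl fun t ht => ?_
  rw [mul_left_comm, hat t ht, mul_assoc]

end Pool.Agent.Helper43.RS
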