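import Pool.Agent.Helper41.RS.COV

/-! # Module FDV: a finite dimensional generating subspace stable under equivariant automorphisms -/

namespace Pool.Agent.Helper43.RS

section
variable {G : Type} [Group G] {H : Subalgebra ℂ (G → ℂ)}

theorem FDV_span {V : Type} [AddCommGroup V] [Module ℂ V] {ρ : Representation ℂ G V}
    (hr : IsRat H ρ) (s : Finset V) : ∃ W : Submodule ℂ V, FiniteDimensional ℂ W ∧
      (∀ g, ∀ w ∈ W, ρ g w ∈ W) ∧ ∀ v ∈ s, v ∈ W := by
  classical
  induction s using Finset.induction_on with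
  | empty => exact ⟨⊥, inferInstance, fun g w hw => by
      rw [Submodule.mem_bot] at hw ⊢
      rw [hw, map_zero], fun v hv => absurd hv (Finset.notMem_empty v)⟩
  | insert u s _ ih =>
    obtain ⟨W, hfin, hst, hs⟩ := ih
    obtain ⟨W', hu, hfin', hst', _⟩ := hr u
    refine ⟨W ⊔ W', inferInstance, ?_, ?_⟩
    · intro g w hw
      obtain ⟨a, ha, b, hb, rfl⟩ := Submodule.mem_sup.mp hw
      rw [map_add]
      exact Submodule.add_mem _ ((le_sup_left : W ≤ W ⊔ W') (hst g a ha))
        ((le_sup_right : W' ≤ W ⊔ W') (hst' g b hb))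
    · intro v hv
      rcases Finset.mem_insert.mp hv with h | h
      · rw [h]
        exact (le_sup_right : W' ≤ W ⊔ W') hu
      · exact (le_sup_left : W ≤ W ⊔ W') (hs v h)

theorem FDV_gen {R : Type} [CommRing R] [Algebra ℂ R] [Algebra.FiniteType ℂ R]
    {ρ : G →* (R ≃ₐ[ℂ] R)} (hr : IsRat H (toRep ρ)) : ∃ V : Submodule ℂ R,
      FiniteDimensional ℂ V ∧ (∀ g, ∀ v ∈ V, toRep ρ g v ∈ V) ∧
      Algebra.adjoin ℂ (V : Set R) = ⊤ := by
  obtain ⟨s, hs⟩ := (Algebra.FiniteType.out : (⊤ : Subalgebra ℂ R).FG)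
  obtain ⟨V, hfin, hst, hV⟩ := FDV_span hr s
  refine ⟨V, hfin, hst, ?_⟩
  rw [eq_top_iff, ← hs]
  exact Algebra.adjoin_mono fun v hv => hV v hv

theorem FDV_nice (hH : HopfFun H) {V : Type} [AddCommGroup V] [Module ℂ V]
    {ρ : Representation ℂ G V} (hr : IsRat H ρ) {V0 : Type} [AddCommGroup V0] [Module ℂ V0]
    [FiniteDimensional ℂ V0] {ρ0 : Representation ℂ G V0} (hr0 : IsRat H ρ0)
    (θ : V0 →ₗ[ℂ] V) : REY_nice H (Representation.linHom ρ0 ρ) θ := by
  let b := Module.finBasis ℂ V0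
  choose ι hι h p hh hp using fun j => REY_nice_of_rat hr (θ (b j))
  refine ⟨(j : Fin (Module.finrank ℂ V0)) × (ι j × Fin (Module.finrank ℂ V0)), inferInstance,
    fun q g => b.coord q.1 (ρ0 g⁻¹ (b q.2.2)) * h q.1 q.2.1 g,
    fun q => (b.coord q.2.2).smulRight (p q.1 q.2.1), ?_, ?_⟩
  · rintro ⟨j, i, l⟩
    exact H.mul_mem (hH.inv _ (REY_coef hr0 (b l) (b.coord j))) (hh j i)
  · intro g
    refine b.ext fun l' => ?_
    rw [Representation.linHom_apply, LinearMap.comp_apply, LinearMap.comp_apply,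
      LinearMap.sum_apply, Fintype.sum_sigma]
    conv_lhs => rw [← b.sum_repr (ρ0 g⁻¹ (b l'))]
    rw [map_sum, map_sum]
    refine Finset.sum_congr rfl fun j _ => ?_
    rw [map_smul, map_smul, hp j g, Fintype.sum_prod_type, Finset.smul_sum]
    refine Finset.sum_congr rfl fun i _ => ?_
    rw [Finset.sum_eq_single l']
    · have h1 : b.coord l' (b l') = 1 := by
        rw [b.coord_apply, b.repr_self, Finsupp.single_eq_same]
      change (b.coord j) (ρ0 g⁻¹ (b l')) • h j i g • p j i =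
        (((b.coord j) (ρ0 g⁻¹ (b l')) * h j i g) • (b.coord l').smulRight (p j i)) (b l')
      rw [LinearMap.smul_apply, LinearMap.smulRight_apply, h1, one_smul, smul_smul]
    · intro l _ hl
      have h1 : b.coord l (b l') = 0 := by
        rw [b.coord_apply, b.repr_self, Finsupp.single_eq_of_ne hl]
      change (((b.coord j) (ρ0 g⁻¹ (b l)) * h j i g) • (b.coord l).smulRight (p j i)) (b l') = 0
      rw [LinearMap.smul_apply, LinearMap.smulRight_apply, h1, zero_smul, smul_zero]
    · intro hl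
      exact absurd (Finset.mem_univ _) hl

end

theorem FDV_comb {G : Type} [Group G] {H : Subalgebra ℂ (G → ℂ)} (hREY : ST_REY)
    (hH : HopfFun H) (hL : LinRed H) {R : Type} [CommRing R] [Algebra ℂ R]
    {ρ : G →* (R ≃ₐ[ℂ] R)} (hr : IsRat H (toRep ρ)) {V0 : Type} [AddCommGroup V0] [Module ℂ V0]
    [FiniteDimensional ℂ V0] {ρ0 : Representation ℂ G V0} (hr0 : IsRat H ρ0)
    (T : Finset (V0 →ₗ[ℂ] R)) (hT : ∀ t ∈ T, t ∈ (Representation.linHom ρ0 (toRep ρ)).invariants)
    (θ : V0 →ₗ[ℂ] R) (hθ : θ ∈ (Representation.linHom ρ0 (toRep ρ)).invariants)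
    (hspan : θ ∈ Submodule.span R (T : Set (V0 →ₗ[ℂ] R))) :
    ∃ e : (V0 →ₗ[ℂ] R) → R, (∀ t, e t ∈ invt ρ) ∧ θ = ∑ t ∈ T, e t • t := by
  obtain ⟨x, _, hx⟩ := Submodule.mem_span_finset.mp hspan
  choose e he hd using fun t => COV_E hREY hH hL ρ hr (x t)
  refine ⟨e, he, ?_⟩
  have hrat : IsRat H (Representation.linHom ρ0 (toRep ρ)) :=
    REY_rat_of_nice fun θ => FDV_nice hH hr hr0 θ
  have hsm : ∀ (g : G) (w : R) (t : V0 →ₗ[ℂ] R),
      t ∈ (Representation.linHom ρ0 (toRep ρ)).invariants →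
      Representation.linHom ρ0 (toRep ρ) g (w • t) = (ρ g w) • t := by
    intro g w t ht
    have h1 := ht g
    ext v
    have h2 := LinearMap.congr_fun h1 v
    rw [Representation.linHom_apply] at h2 ⊢
    simp only [LinearMap.comp_apply, LinearMap.smul_apply, smul_eq_mul, toRep_apply,
      map_mul] at h2 ⊢
    rw [h2]
  have h0 : θ - ∑ t ∈ T, e t • t = 0 := by
    have hc := hREY G H hH hL (V0 →ₗ[ℂ] R) (Representation.linHom ρ0 (toRep ρ)) hrat
    refine (Submodule.disjoint_def.mp hc.disjoint) _ ?_ ?_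
    · refine Submodule.sub_mem _ hθ (Submodule.sum_mem _ fun t ht => ?_)
      intro g
      rw [hsm g _ t (hT t ht), he t g]
    · have h1 : θ - ∑ t ∈ T, e t • t = ∑ t ∈ T, (x t - e t) • t := by
        rw [← hx, ← Finset.sum_sub_distrib]
        exact Finset.sum_congr rfl fun t _ => (sub_smul _ _ _).symm
      rw [h1]
      refine Submodule.sum_mem _ fun t ht => ?_
      have h2 : REY_D (toRep ρ) ≤ (Submodule.span ℂ {v | ∃ (g : G) (w : V0 →ₗ[ℂ] R),
          v = Representation.linHom ρ0 (toRep ρ) g w - w}).comap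
          (LinearMap.toSpanSingleton R (V0 →ₗ[ℂ] R) t |>.restrictScalars ℂ) := by
        unfold REY_D
        rw [Submodule.span_le]
        rintro _ ⟨g, w, rfl⟩
        refine Submodule.subset_span ⟨g, w • t, ?_⟩
        rw [hsm g w t (hT t ht)]
        exact sub_smul (toRep ρ g w) w t
      exact h2 (hd t)
  exact sub_eq_zero.mp h0

theorem st_FDV (hREY : ST_REY) : ST_FDV := by
  intro G _ H hH hL R _ _ _ ρ hr hconst
  have : IsNoetherianRing R := Algebra.FiniteType.isNoetherianRing ℂ R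
  obtain ⟨V0, hfin, hst, hgen⟩ := FDV_gen hr
  let ρ0 := REY_sub (toRep ρ) V0 hst
  have hr0 : IsRat H ρ0 := REY_sub_rat hr V0 hst
  let b := Module.finBasis ℂ V0
  have hnoe : IsNoetherian R (V0 →ₗ[ℂ] R) :=
    isNoetherian_of_linearEquiv (b.constr R : (Fin (Module.finrank ℂ V0) → R) ≃ₗ[R] (V0 →ₗ[ℂ] R))
  obtain ⟨T, hTS, hT⟩ := (Submodule.fg_span_iff_fg_span_finset_subset
    ((Representation.linHom ρ0 (toRep ρ)).invariants : Set (V0 →ₗ[ℂ] R))).mp
    (IsNoetherian.noetherian (Submodule.span R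
      ((Representation.linHom ρ0 (toRep ρ)).invariants : Set (V0 →ₗ[ℂ] R))))
  have hinv : ∀ θ : V0 →ₗ[ℂ] R, θ ∈ (Representation.linHom ρ0 (toRep ρ)).invariants ↔
      ∀ g (v : V0), ρ g (θ v) = θ (ρ0 g v) := by
    intro θ
    constructor
    · intro h g v
      have h1 := LinearMap.congr_fun (h g) (ρ0 g v)
      rw [Representation.linHom_apply] at h1
      simp only [LinearMap.comp_apply, toRep_apply] at h1
      rw [← Module.End.mul_apply, ← map_mul, inv_mul_cancel, map_one,
        Module.End.one_apply] at h1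
      exact h1
    · intro h g
      ext v
      rw [Representation.linHom_apply]
      simp only [LinearMap.comp_apply, toRep_apply]
      rw [h, ← Module.End.mul_apply, ← map_mul, mul_inv_cancel, map_one, Module.End.one_apply]
  refine ⟨Submodule.span ℂ {x | ∃ θ ∈ (Representation.linHom ρ0 (toRep ρ)).invariants,
    ∃ v : V0, x = θ v}, ?_, ?_, ?_⟩
  · -- finite dimensional
    have h1 : Submodule.span ℂ {x | ∃ θ ∈ (Representation.linHom ρ0 (toRep ρ)).invariants,
        ∃ v : V0, x = θ v} ≤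
        Submodule.span ℂ (Set.range fun q : T × Fin (Module.finrank ℂ V0) =>
          (q.1 : V0 →ₗ[ℂ] R) (b q.2)) := by
      rw [Submodule.span_le]
      rintro _ ⟨θ, hθ, v, rfl⟩
      obtain ⟨e, he, hθe⟩ := FDV_comb hREY hH hL hr hr0 T (fun t ht => hTS ht) θ hθ (by
        rw [← hT]
        exact Submodule.subset_span hθ)
      choose c hc using fun t => hconst (e t) (he t)
      rw [hθe, LinearMap.sum_apply]
      refine Submodule.sum_mem _ fun t ht => ?_
      rw [LinearMap.smul_apply, hc t, algebraMap_smul]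
      refine Submodule.smul_mem _ _ ?_
      rw [← b.sum_repr v, map_sum]
      refine Submodule.sum_mem _ fun j _ => ?_
      rw [map_smul]
      exact Submodule.smul_mem _ _ (Submodule.subset_span ⟨(⟨t, ht⟩, j), rfl⟩)
    have : FiniteDimensional ℂ (Submodule.span ℂ
        (Set.range fun q : T × Fin (Module.finrank ℂ V0) => (q.1 : V0 →ₗ[ℂ] R) (b q.2))) :=
      FiniteDimensional.span_of_finite ℂ (Set.finite_range _)
    exact Submodule.finiteDimensional_of_le h1
  · -- generates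
    rw [eq_top_iff, ← hgen]
    refine Algebra.adjoin_mono fun v hv => Submodule.subset_span ⟨V0.subtype, ?_, ⟨v, hv⟩, rfl⟩
    exact (hinv _).mpr fun g v => rfl
  · intro a ha v hv
    have h1 : Submodule.span ℂ {x | ∃ θ ∈ (Representation.linHom ρ0 (toRep ρ)).invariants,
        ∃ v : V0, x = θ v} ≤ (Submodule.span ℂ {x | ∃ θ ∈
          (Representation.linHom ρ0 (toRep ρ)).invariants, ∃ v : V0, x = θ v}).comap
          a.toLinearMap := by
      rw [Submodule.span_le]
      rintro _ ⟨θ, hθ, v, rfl⟩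
      refine Submodule.subset_span ⟨a.toLinearMap ∘ₗ θ, (hinv _).mpr fun g w => ?_, v, rfl⟩
      have h2 := congrArg (fun f : R ≃ₐ[ℂ] R => f (θ w)) (ha g)
      have h3 : a (ρ g (θ w)) = ρ g (a (θ w)) := h2
      change ρ g (a (θ w)) = a (θ (ρ0 g w))
      rw [← h3, (hinv θ).mp hθ g w]
    exact h1 hv

end Pool.Agent.Helper43.RS
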