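import Pool.Agent.Helper41.RS.FDV

/-! # Module HIL: finite generation of invariants -/

namespace Pool.Agent.Helper43.RS

open MvPolynomial

section nice
variable {G : Type} [Group G] {H : Subalgebra ℂ (G → ℂ)}

theorem HIL_nice_add {V : Type} [AddCommGroup V] [Module ℂ V] {ρ : Representation ℂ G V}
    {v w : V} (hv : REY_nice H ρ v) (hw : REY_nice H ρ w) : REY_nice H ρ (v + w) := by
  obtain ⟨ι, _, h, p, hh, hp⟩ := hv
  obtain ⟨κ, _, k, q, hk, hq⟩ := hw
  refine ⟨ι ⊕ κ, inferInstance, Sum.elim h k, Sum.elim p q, ?_, fun g => ?_⟩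
  · rintro (i | i)
    · exact hh i
    · exact hk i
  · rw [map_add, hp g, hq g, Fintype.sum_sum_type]
    rfl

theorem HIL_nice_mul {R : Type} [CommRing R] [Algebra ℂ R] {ρ : G →* (R ≃ₐ[ℂ] R)}
    {v w : R} (hv : REY_nice H (toRep ρ) v) (hw : REY_nice H (toRep ρ) w) :
    REY_nice H (toRep ρ) (v * w) := by
  obtain ⟨ι, _, h, p, hh, hp⟩ := hv
  obtain ⟨κ, _, k, q, hk, hq⟩ := hw
  refine ⟨ι × κ, inferInstance, fun i => h i.1 * k i.2, fun i => p i.1 * q i.2,
    fun i => H.mul_mem (hh _) (hk _), fun g => ?_⟩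
  rw [toRep_apply, map_mul, ← toRep_apply, ← toRep_apply, hp g, hq g, Fintype.sum_prod_type,
    Finset.sum_mul_sum]
  refine Finset.sum_congr rfl fun i _ => Finset.sum_congr rfl fun j _ => ?_
  rw [smul_mul_smul_comm]
  rfl

theorem HIL_nice_const {R : Type} [CommRing R] [Algebra ℂ R] {ρ : G →* (R ≃ₐ[ℂ] R)} (c : ℂ) :
    REY_nice H (toRep ρ) (algebraMap ℂ R c) := by
  refine ⟨Unit, inferInstance, fun _ => 1, fun _ => algebraMap ℂ R c, fun _ => H.one_mem,
    fun g => ?_⟩
  rw [toRep_apply, AlgEquiv.commutes]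
  simp

end nice

section poly
variable {G : Type} [Group G] {n : ℕ}

/-- An action on a polynomial ring by degree preserving automorphisms. -/
def HIL_graded (τ : G →* (MvPolynomial (Fin n) ℂ ≃ₐ[ℂ] MvPolynomial (Fin n) ℂ)) : Prop :=
  ∀ g (p : MvPolynomial (Fin n) ℂ) (m : ℕ), p.IsHomogeneous m → (τ g p).IsHomogeneous m

theorem HIL_comp {τ : G →* (MvPolynomial (Fin n) ℂ ≃ₐ[ℂ] MvPolynomial (Fin n) ℂ)}
    (hτ : HIL_graded τ) (g : G) (p : MvPolynomial (Fin n) ℂ) (k : ℕ) :
    homogeneousComponent k (τ g p) = τ g (homogeneousComponent k p) := by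
  have h1 : ∀ (s : Finset ℕ), homogeneousComponent k (τ g (∑ i ∈ s, homogeneousComponent i p)) =
      ∑ i ∈ s, if k = i then τ g (homogeneousComponent i p) else 0 := by
    intro s
    rw [map_sum, map_sum]
    refine Finset.sum_congr rfl fun i _ => ?_
    exact homogeneousComponent_of_mem (hτ g _ i (homogeneousComponent_isHomogeneous i p))
  conv_lhs => rw [← sum_homogeneousComponent p]
  rw [h1, Finset.sum_ite_eq]
  split_ifs with h
  · rfl
  · rw [homogeneousComponent_eq_zero, map_zero]
    rw [Finset.mem_range, not_lt] at h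
    omega

theorem HIL_comp_inv {τ : G →* (MvPolynomial (Fin n) ℂ ≃ₐ[ℂ] MvPolynomial (Fin n) ℂ)}
    (hτ : HIL_graded τ) {p : MvPolynomial (Fin n) ℂ} (hp : p ∈ invt τ) (k : ℕ) :
    homogeneousComponent k p ∈ invt τ := by
  intro g
  rw [← HIL_comp hτ, hp g]

theorem HIL_poly (hREY : ST_REY) {H : Subalgebra ℂ (G → ℂ)} (hH : HopfFun H) (hL : LinRed H)
    (τ : G →* (MvPolynomial (Fin n) ℂ ≃ₐ[ℂ] MvPolynomial (Fin n) ℂ)) (hτ : HIL_graded τ)
    (hr : IsRat H (toRep τ)) : (invt τ).FG := by
  classical
  let S : Set (MvPolynomial (Fin n) ℂ) := {f | f ∈ invt τ ∧ ∃ d, 0 < d ∧ f.IsHomogeneous d}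
  obtain ⟨T, hTS, hT⟩ := (Submodule.fg_span_iff_fg_span_finset_subset S).mp
    (IsNoetherian.noetherian (Submodule.span (MvPolynomial (Fin n) ℂ) S))
  have key : ∀ d : ℕ, ∀ f ∈ invt τ, f.IsHomogeneous d →
      f ∈ Algebra.adjoin ℂ (T : Set (MvPolynomial (Fin n) ℂ)) := by
    intro d
    induction d using Nat.strong_induction_on with
    | _ d ih =>
      intro f hf hfd
      rcases Nat.eq_zero_or_pos d with h0 | h0
      · subst h0
        have h1 : f.totalDegree = 0 := Nat.le_zero.mp hfd.totalDegree_le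
        rw [totalDegree_eq_zero_iff_eq_C.mp h1]
        exact Subalgebra.algebraMap_mem _ _
      · have h1 : f ∈ Submodule.span (MvPolynomial (Fin n) ℂ)
            (T : Set (MvPolynomial (Fin n) ℂ)) := by
          rw [← hT]
          exact Submodule.subset_span ⟨hf, d, h0, hfd⟩
        obtain ⟨x, _, hx⟩ := Submodule.mem_span_finset.mp h1
        choose e he hd using fun t => COV_E hREY hH hL τ hr (x t)
        have h2 : f - ∑ t ∈ T, e t * t = 0 := by
          refine COV_zero hREY hH hL τ hr _ ?_ ?_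
          · exact (invt τ).sub_mem hf ((invt τ).sum_mem fun t ht =>
              (invt τ).mul_mem (he t) (hTS ht).1)
          · have h4 : f - ∑ t ∈ T, e t * t = ∑ t ∈ T, (x t - e t) * t := by
              rw [← hx, ← Finset.sum_sub_distrib]
              exact Finset.sum_congr rfl fun t _ => (sub_mul _ _ _).symm
            rw [h4]
            exact Submodule.sum_mem _ fun t ht => COV_mul τ _ _ (hTS ht).1 (hd t)
        have h3 : f = ∑ t ∈ T, homogeneousComponent d (e t * t) := by
          rw [← map_sum, ← sub_eq_zero.mp h2, homogeneousComponent_eq_self hfd]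
        rw [h3]
        refine Subalgebra.sum_mem _ fun t ht => ?_
        obtain ⟨m, hm, htm⟩ := (hTS ht).2
        have h5 : homogeneousComponent d (e t * t) =
            ∑ i ∈ Finset.range ((e t).totalDegree + 1),
              if d = i + m then homogeneousComponent i (e t) * t else 0 := by
          conv_lhs => rw [← sum_homogeneousComponent (e t)]
          rw [Finset.sum_mul, map_sum]
          refine Finset.sum_congr rfl fun i _ => ?_
          exact homogeneousComponent_of_mem
            ((homogeneousComponent_isHomogeneous i (e t)).mul htm)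
        rw [h5]
        refine Subalgebra.sum_mem _ fun i _ => ?_
        split_ifs with hi
        · exact Subalgebra.mul_mem _ (ih i (by omega) _ (HIL_comp_inv hτ (he t) i)
            (homogeneousComponent_isHomogeneous i (e t))) (Algebra.subset_adjoin ht)
        · exact Subalgebra.zero_mem _
  refine ⟨T, le_antisymm ?_ ?_⟩
  · rw [Algebra.adjoin_le_iff]
    exact fun t ht => (hTS ht).1
  · intro f hf
    rw [← sum_homogeneousComponent f]
    exact Subalgebra.sum_mem _ fun i _ => key i _ (HIL_comp_inv hτ hf i)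
      (homogeneousComponent_isHomogeneous i f)

end poly

theorem st_HIL (hREY : ST_REY) : ST_HIL := by
  intro G _ H hH hL R _ _ _ ρ hr
  obtain ⟨V0, hfin, hst, hgen⟩ := FDV_gen hr
  let ρ0 := REY_sub (toRep ρ) V0 hst
  have hr0 : IsRat H ρ0 := REY_sub_rat hr V0 hst
  let n := Module.finrank ℂ V0
  let b : Module.Basis (Fin n) ℂ V0 := Module.finBasis ℂ V0
  let lam : V0 →ₗ[ℂ] MvPolynomial (Fin n) ℂ := b.constr ℂ X
  have hlb : ∀ j, lam (b j) = X j := fun j => b.constr_basis ℂ X j
  let T : G → (MvPolynomial (Fin n) ℂ →ₐ[ℂ] MvPolynomial (Fin n) ℂ) := fun g =>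
    aeval fun j => lam (ρ0 g (b j))
  have hTl : ∀ g v, T g (lam v) = lam (ρ0 g v) := by
    intro g v
    have h1 : (T g).toLinearMap ∘ₗ lam = lam ∘ₗ ρ0 g := by
      refine b.ext fun j => ?_
      change T g (lam (b j)) = lam (ρ0 g (b j))
      rw [hlb]
      exact aeval_X _ _
    exact LinearMap.congr_fun h1 v
  have hTT : ∀ g g', (T g).comp (T g') = T (g * g') := by
    intro g g'
    refine MvPolynomial.algHom_ext fun j => ?_
    change T g (T g' (X j)) = T (g * g') (X j)
    rw [← hlb, hTl, hTl, hTl, map_mul]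
    rfl
  have hT1 : T 1 = AlgHom.id ℂ _ := by
    refine MvPolynomial.algHom_ext fun j => ?_
    change T 1 (X j) = X j
    rw [← hlb, hTl, map_one]
    rfl
  let τ : G →* (MvPolynomial (Fin n) ℂ ≃ₐ[ℂ] MvPolynomial (Fin n) ℂ) :=
    { toFun := fun g => AlgEquiv.ofAlgHom (T g) (T g⁻¹)
        (by rw [hTT, mul_inv_cancel, hT1]) (by rw [hTT, inv_mul_cancel, hT1])
      map_one' := by
        ext p : 1
        change T 1 p = p
        rw [hT1]
        rfl
      map_mul' := fun g g' => by
        ext p : 1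
        change T (g * g') p = T g (T g' p)
        rw [← hTT]
        rfl }
  have hτT : ∀ g p, τ g p = T g p := fun g p => rfl
  -- the projection
  let π : MvPolynomial (Fin n) ℂ →ₐ[ℂ] R := aeval fun j => (b j : R)
  have hπl : ∀ v : V0, π (lam v) = v := by
    intro v
    have h1 : π.toLinearMap ∘ₗ lam = V0.subtype := by
      refine b.ext fun j => ?_
      change π (lam (b j)) = (b j : R)
      rw [hlb]
      exact aeval_X _ _
    exact LinearMap.congr_fun h1 v
  have hπτ : ∀ g p, π (τ g p) = ρ g (π p) := by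
    intro g p
    have h1 : π.comp (T g) = ((ρ g : R ≃ₐ[ℂ] R) : R →ₐ[ℂ] R).comp π := by
      refine MvPolynomial.algHom_ext fun j => ?_
      change π (T g (X j)) = ρ g (π (X j))
      rw [← hlb, hTl, hπl, hπl]
      rfl
    exact AlgHom.congr_fun h1 p
  have hsurj : Function.Surjective π := by
    have h1 : Algebra.adjoin ℂ (V0 : Set R) ≤ π.range := by
      rw [Algebra.adjoin_le_iff]
      intro v hv
      exact ⟨lam ⟨v, hv⟩, hπl ⟨v, hv⟩⟩
    intro r
    exact h1 (by rw [hgen]; trivial)
  -- rationality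
  have hrat : IsRat H (toRep τ) := by
    refine REY_rat_of_nice fun p => ?_
    induction p using MvPolynomial.induction_on with
    | C c => exact HIL_nice_const c
    | add p q hp hq => exact HIL_nice_add hp hq
    | mul_X p j hp =>
      refine HIL_nice_mul hp ?_
      obtain ⟨ι, _, h, q, hh, hq⟩ := REY_nice_of_rat hr0 (b j)
      refine ⟨ι, inferInstance, h, fun i => lam (q i), hh, fun g => ?_⟩
      change T g (X j) = _
      rw [← hlb, hTl, hq g, map_sum]
      exact Finset.sum_congr rfl fun i _ => map_smul _ _ _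
  have hgr : HIL_graded τ := by
    intro g p m hp
    have h1 : ∀ v, (lam v).IsHomogeneous 1 := by
      intro v
      rw [← b.sum_repr v, map_sum]
      refine IsHomogeneous.sum _ _ _ fun j _ => ?_
      rw [map_smul, hlb]
      exact (homogeneousSubmodule (Fin n) ℂ 1).smul_mem _ (isHomogeneous_X ℂ j)
    have h2 := hp.aeval (fun j => lam (ρ0 g (b j))) fun j => h1 _
    rw [one_mul] at h2
    exact h2
  have hP := HIL_poly hREY hH hL τ hgr hrat
  have himg : invt ρ = (invt τ).map π := by
    refine le_antisymm ?_ ?_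
    · intro r hrr
      obtain ⟨q, rfl⟩ := hsurj r
      obtain ⟨e, he, hd⟩ := COV_E hREY hH hL τ hrat q
      refine ⟨e, he, ?_⟩
      have hπe : π e ∈ invt ρ := fun g => by rw [← hπτ, he g]
      have h1 : π q - π e = 0 := by
        refine COV_zero hREY hH hL ρ hr _ ((invt ρ).sub_mem hrr hπe) ?_
        have h2 : REY_D (toRep τ) ≤ (REY_D (toRep ρ)).comap π.toLinearMap := by
          unfold REY_D
          rw [Submodule.span_le]
          rintro _ ⟨g, w, rfl⟩
          refine Submodule.subset_span ⟨g, π w, ?_⟩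
          change π (τ g w - w) = ρ g (π w) - π w
          rw [map_sub, hπτ]
        have h3 : π (q - e) ∈ REY_D (toRep ρ) := h2 hd
        rwa [map_sub] at h3
      exact (sub_eq_zero.mp h1).symm
    · rintro _ ⟨p, hp, rfl⟩
      intro g
      change ρ g (π p) = π p
      rw [← hπτ, hp g]
  rw [himg]
  exact Subalgebra.FG.map π hP

end Pool.Agent.Helper43.RS
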