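import Pool.Agent.Helper43.RS.Spec

/-! # Module REY: the Reynolds decomposition -/

namespace Pool.Agent.Helper43.RS

variable {G : Type} [Group G] {H : Subalgebra ℂ (G → ℂ)}

/-- `v` is nice if `ρ g v` is a finite combination of fixed vectors with coefficients in `H`. -/
def REY_nice (H : Subalgebra ℂ (G → ℂ)) {V : Type} [AddCommGroup V] [Module ℂ V]
    (ρ : Representation ℂ G V) (v : V) : Prop :=
  ∃ (ι : Type) (_ : Fintype ι) (h : ι → G → ℂ) (p : ι → V), (∀ i, h i ∈ H) ∧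
    ∀ g, ρ g v = ∑ i, h i g • p i

section
variable {V : Type} [AddCommGroup V] [Module ℂ V] {ρ : Representation ℂ G V}

theorem REY_coef (hr : IsRat H ρ) (v : V) (φ : V →ₗ[ℂ] ℂ) : (fun g => φ (ρ g v)) ∈ H := by
  obtain ⟨W, hv, _, _, h⟩ := hr v
  exact h v hv φ

theorem REY_nice_of_rat (hr : IsRat H ρ) (v : V) : REY_nice H ρ v := by
  obtain ⟨W, hv, hfin, hst, hc⟩ := hr v
  let b := Module.finBasis ℂ W
  choose e he using fun i => LinearMap.exists_extend (b.coord i)
  refine ⟨Fin (Module.finrank ℂ W), inferInstance, fun i g => e i (ρ g v), fun i => (b i : V),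
    fun i => hc v hv (e i), fun g => ?_⟩
  have hw : ρ g v ∈ W := hst g v hv
  have h1 := congrArg Subtype.val (b.sum_repr ⟨ρ g v, hw⟩)
  rw [AddSubmonoidClass.coe_finsetSum] at h1
  have h2 : ∀ i, e i (ρ g v) = b.repr ⟨ρ g v, hw⟩ i := by
    intro i
    have h3 := LinearMap.congr_fun (he i) ⟨ρ g v, hw⟩
    exact h3
  simp only [h2]
  exact h1.symm

theorem REY_rat_of_nice (h : ∀ v, REY_nice H ρ v) : IsRat H ρ := by
  have hcoef : ∀ (v : V) (φ : V →ₗ[ℂ] ℂ), (fun g => φ (ρ g v)) ∈ H := by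
    intro v φ
    obtain ⟨ι, _, a, p, ha, hp⟩ := h v
    have h1 : (fun g => φ (ρ g v)) = ∑ i, φ (p i) • a i := by
      funext g
      rw [hp g, map_sum, Finset.sum_apply]
      refine Finset.sum_congr rfl fun i _ => ?_
      rw [map_smul, Pi.smul_apply, smul_eq_mul, smul_eq_mul, mul_comm]
    rw [h1]
    exact H.sum_mem fun i _ => H.smul_mem (ha i) _
  intro v
  obtain ⟨ι, _, a, p, ha, hp⟩ := h v
  refine ⟨Submodule.span ℂ (Set.range fun g => ρ g v), ?_, ?_, ?_, fun w _ φ => hcoef w φ⟩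
  · refine Submodule.subset_span ⟨1, ?_⟩
    simp
  · have h1 : Submodule.span ℂ (Set.range fun g => ρ g v) ≤ Submodule.span ℂ (Set.range p) := by
      rw [Submodule.span_le]
      rintro _ ⟨g, rfl⟩
      change ρ g v ∈ Submodule.span ℂ (Set.range p)
      rw [hp g]
      exact Submodule.sum_mem _ fun i _ =>
        Submodule.smul_mem _ _ (Submodule.subset_span ⟨i, rfl⟩)
    have : FiniteDimensional ℂ (Submodule.span ℂ (Set.range p)) :=
      FiniteDimensional.span_of_finite ℂ (Set.finite_range p)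
    exact Submodule.finiteDimensional_of_le h1
  · intro g w hw
    have h1 : Submodule.span ℂ (Set.range fun g => ρ g v) ≤
        (Submodule.span ℂ (Set.range fun g => ρ g v)).comap (ρ g) := by
      rw [Submodule.span_le]
      rintro _ ⟨g', rfl⟩
      change ρ g (ρ g' v) ∈ Submodule.span ℂ (Set.range fun g => ρ g v)
      refine Submodule.subset_span ⟨g * g', ?_⟩
      change ρ (g * g') v = _
      rw [map_mul]
      rfl
    exact h1 hw

/-- The restriction of a representation to a stable subspace. -/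
def REY_sub (ρ : Representation ℂ G V) (W : Submodule ℂ V) (hW : ∀ g, ∀ w ∈ W, ρ g w ∈ W) :
    Representation ℂ G W where
  toFun g := (ρ g).restrict (hW g)
  map_one' := by
    ext w
    simp
  map_mul' g g' := by
    ext w
    simp

theorem REY_sub_coe (W : Submodule ℂ V) (hW : ∀ g, ∀ w ∈ W, ρ g w ∈ W) (g : G) (w : W) :
    ((REY_sub ρ W hW g w : W) : V) = ρ g w := rfl

theorem REY_sub_rat (hr : IsRat H ρ) (W : Submodule ℂ V) [FiniteDimensional ℂ W]
    (hW : ∀ g, ∀ w ∈ W, ρ g w ∈ W) : IsRat H (REY_sub ρ W hW) := by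
  intro w
  refine ⟨⊤, trivial, inferInstance, fun _ _ _ => trivial, fun w' _ φ => ?_⟩
  obtain ⟨ψ, hψ⟩ := LinearMap.exists_extend φ
  have h1 : (fun g => φ (REY_sub ρ W hW g w')) = fun g => ψ (ρ g w') := by
    funext g
    rw [← hψ]
    rfl
  rw [h1]
  exact REY_coef hr _ _

/-- The span of the differences. -/
def REY_D (ρ : Representation ℂ G V) : Submodule ℂ V :=
  Submodule.span ℂ {v | ∃ (g : G) (w : V), v = ρ g w - w}

theorem REY_fin (hL : LinRed H) [FiniteDimensional ℂ V] (hr : IsRat H ρ) :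
    IsCompl ρ.invariants (REY_D ρ) := by
  have hDst : ∀ g, ∀ w ∈ REY_D ρ, ρ g w ∈ REY_D ρ := by
    intro g w hw
    have h1 : REY_D ρ ≤ (REY_D ρ).comap (ρ g) := by
      unfold REY_D
      rw [Submodule.span_le]
      rintro _ ⟨g', w', rfl⟩
      refine Submodule.subset_span ⟨g * g' * g⁻¹, ρ g w', ?_⟩
      rw [map_sub, ← Module.End.mul_apply, ← Module.End.mul_apply, ← map_mul, ← map_mul,
        inv_mul_cancel_right]
    exact h1 hw
  have hIst : ∀ g, ∀ w ∈ ρ.invariants, ρ g w ∈ ρ.invariants := by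
    intro g w hw
    rw [hw g]
    exact hw
  obtain ⟨W1, hW1, hc1⟩ := hL V ρ hr ρ.invariants hIst
  obtain ⟨W2, hW2, hc2⟩ := hL V ρ hr (REY_D ρ) hDst
  have hD1 : REY_D ρ ≤ W1 := by
    unfold REY_D
    rw [Submodule.span_le]
    rintro _ ⟨g, w, rfl⟩
    have hw : w ∈ ρ.invariants ⊔ W1 := by
      rw [hc1.sup_eq_top]
      trivial
    obtain ⟨i, hi, w1, hw1, rfl⟩ := Submodule.mem_sup.mp hw
    have : ρ g (i + w1) - (i + w1) = ρ g w1 - w1 := by
      rw [map_add, hi g]
      abel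
    rw [this]
    exact W1.sub_mem (hW1 g w1 hw1) hw1
  have hW2i : W2 ≤ ρ.invariants := by
    intro w hw g
    have h1 : ρ g w - w ∈ REY_D ρ ⊓ W2 :=
      ⟨Submodule.subset_span ⟨g, w, rfl⟩, W2.sub_mem (hW2 g w hw) hw⟩
    rw [hc2.inf_eq_bot] at h1
    exact sub_eq_zero.mp h1
  constructor
  · exact hc1.disjoint.mono_right hD1
  · rw [codisjoint_iff, eq_top_iff, ← hc2.sup_eq_top, sup_comm]
    exact sup_le_sup_right hW2i _

theorem REY_D_local (hr : IsRat H ρ) (v : V) (hv : v ∈ REY_D ρ) :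
    ∃ W : Submodule ℂ V, FiniteDimensional ℂ W ∧ (∀ g, ∀ w ∈ W, ρ g w ∈ W) ∧
      v ∈ Submodule.span ℂ {v | ∃ (g : G) (w : V), w ∈ W ∧ v = ρ g w - w} := by
  unfold REY_D at hv
  induction hv using Submodule.span_induction with
  | mem x hx =>
    obtain ⟨g, w, rfl⟩ := hx
    obtain ⟨W, hw, hfin, hst, _⟩ := hr w
    exact ⟨W, hfin, hst, Submodule.subset_span ⟨g, w, hw, rfl⟩⟩
  | zero => exact ⟨⊥, inferInstance, fun g w hw => by
      rw [Submodule.mem_bot] at hw ⊢
      rw [hw, map_zero], Submodule.zero_mem _⟩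
  | add x y _ _ hx hy =>
    obtain ⟨W, hfin, hst, hW⟩ := hx
    obtain ⟨W', hfin', hst', hW'⟩ := hy
    refine ⟨W ⊔ W', inferInstance, ?_, ?_⟩
    · intro g w hw
      obtain ⟨a, ha, b, hb, rfl⟩ := Submodule.mem_sup.mp hw
      rw [map_add]
      exact Submodule.add_mem _ ((le_sup_left : W ≤ W ⊔ W') (hst g a ha))
        ((le_sup_right : W' ≤ W ⊔ W') (hst' g b hb))
    · refine Submodule.add_mem _ (Submodule.span_mono ?_ hW) (Submodule.span_mono ?_ hW')
      · rintro _ ⟨g, w, hw, rfl⟩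
        exact ⟨g, w, (le_sup_left : W ≤ W ⊔ W') hw, rfl⟩
      · rintro _ ⟨g, w, hw, rfl⟩
        exact ⟨g, w, (le_sup_right : W' ≤ W ⊔ W') hw, rfl⟩
  | smul c x _ hx =>
    obtain ⟨W, hfin, hst, hW⟩ := hx
    exact ⟨W, hfin, hst, Submodule.smul_mem _ c hW⟩

end

theorem st_REY : ST_REY := by
  intro G _ H _ hL V _ _ ρ hr
  change IsCompl ρ.invariants (REY_D ρ)
  constructor
  · rw [Submodule.disjoint_def]
    intro v hvi hvd
    obtain ⟨W, hfin, hst, hW⟩ := REY_D_local hr v hvd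
    have hf := REY_fin hL (REY_sub_rat hr W hst)
    -- `v` is the image of an element of `REY_D` of the restriction
    have h1 : Submodule.span ℂ {v | ∃ (g : G) (w : V), w ∈ W ∧ v = ρ g w - w} ≤
        (REY_D (REY_sub ρ W hst)).map W.subtype := by
      rw [Submodule.span_le]
      rintro _ ⟨g, w, hw, rfl⟩
      exact ⟨REY_sub ρ W hst g ⟨w, hw⟩ - ⟨w, hw⟩, Submodule.subset_span ⟨g, ⟨w, hw⟩, rfl⟩, rfl⟩
    obtain ⟨w, hw, hwv⟩ := h1 hW
    have hwi : w ∈ (REY_sub ρ W hst).invariants := by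
      intro g
      refine Subtype.ext ?_
      rw [REY_sub_coe]
      change ρ g (W.subtype w) = W.subtype w
      rw [hwv]
      exact hvi g
    have h0 := (Submodule.disjoint_def.mp hf.disjoint) w hwi hw
    rw [← hwv, h0, map_zero]
  · rw [codisjoint_iff, eq_top_iff]
    intro v _
    obtain ⟨W, hv, hfin, hst, _⟩ := hr v
    have hf := REY_fin hL (REY_sub_rat hr W hst)
    have h1 : (⟨v, hv⟩ : W) ∈ (REY_sub ρ W hst).invariants ⊔ REY_D (REY_sub ρ W hst) := by
      rw [hf.sup_eq_top]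
      trivial
    obtain ⟨i, hi, d, hd, hid⟩ := Submodule.mem_sup.mp h1
    have h2 : v = i + d := (congrArg Subtype.val hid).symm
    rw [h2]
    refine Submodule.add_mem _ (Submodule.mem_sup_left ?_) (Submodule.mem_sup_right ?_)
    · intro g
      exact congrArg Subtype.val (hi g)
    · have h3 : REY_D (REY_sub ρ W hst) ≤ (REY_D ρ).comap W.subtype := by
        unfold REY_D
        rw [Submodule.span_le]
        rintro _ ⟨g, w, rfl⟩
        exact Submodule.subset_span ⟨g, w, rfl⟩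
      exact h3 hd

end Pool.Agent.Helper43.RS
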